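import Pool.Agent.Lib_helper33.ASM.Stmts

/-!
# Module DEC: exponential decay of the number of deep discrepancies
-/

set_option autoImplicit false

open scoped BigOperators

namespace Pool.Agent.Lib_helper33.ASM

lemma cst_pos_of {d : ℕ} {p r r' lam Cst : ℝ} (hp0 : 0 < p) (hp1 : p < 1) (hlam : 0 ≤ lam)
    (hC : (0 < r ∧ r' = 2 * r ∧ (1 + p / (1 - p)) * (1 + 2 * lam) ^ (5 ^ d) ≤ Cst) ∨
      (1 + p / (1 - p)) * Real.exp (2 * lam) ≤ Cst) : 0 < Cst := by
  have h1 : 0 < 1 + p / (1 - p) := by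
    have : 0 < p / (1 - p) := div_pos hp0 (by linarith)
    linarith
  rcases hC with ⟨-, -, h⟩ | h
  · refine lt_of_lt_of_le ?_ h
    positivity
  · refine lt_of_lt_of_le ?_ h
    positivity

theorem stmtDEC (hS : StmtSURG) : StmtDEC := by
  intro d ι _ _ x hx a p ha0 ha1 hp0 hp1 D A G β r r' lam Cst hAD hr hrr' hlam hG hC n
  have hpar : Par a p := ⟨ha0, ha1, hp0, hp1⟩
  have hCst : 0 < Cst := cst_pos_of hp0 hp1 hlam hC
  have hr' : 0 < r' := lt_of_le_of_lt hr hrr'
  have hGc : ∀ ω : Cfg ι, ∀ i ∈ G, ∀ k, dist (x i) (x k) < r' → mix D ω β k = ω k := by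
    intro ω i hi k hk
    simp [mix, hAD (hG i hi k hk)]
  set F : Cfg ι → ℝ := fun ω => ind (Agree x (mix D ω β) ω A r ∧ Wc x a ω G r r' lam) with hF
  have hF0 : ∀ ω, 0 ≤ F ω := fun ω => ind_nonneg _
  set An : ℕ → ℝ := fun m => ex a p (fun ω => F ω * cnt fun z => DP x (mix D ω β) ω G r' m z)
    with hAn
  have hterm : ∀ m, ex a p (fun ω => F ω *
      cnt fun z => DP x (mix D ω β) ω G r' (m + 1) z ∧ Term x (mix D ω β) ω G r' z) =
      An (m + 1) - An (m + 2) := by
    intro m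
    rw [hAn, ← ex_sub]
    congr 1
    funext ω
    rw [cnt_term hx hr' (hGc ω) m]
    ring
  have hsurg : ∀ m, ex a p (fun ω => F ω *
      cnt fun z => DP x (mix D ω β) ω G r' (m + 1) z ∧ Stop x (mix D ω β) ω z) ≤
      Cst * (An (m + 1) - An (m + 2)) := by
    intro m
    rw [← hterm m]
    exact hS d ι x hx a p ha0 ha1 hp0 hp1 D A G β r r' lam Cst hAD hr hrr' hlam hG hC m
  have hanti : ∀ m, An (m + 2) ≤ An (m + 1) := by
    intro m
    have h1 : 0 ≤ ex a p (fun ω => F ω *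
      cnt fun z => DP x (mix D ω β) ω G r' (m + 1) z ∧ Term x (mix D ω β) ω G r' z) :=
      ex_nonneg hpar (fun ω => mul_nonneg (hF0 ω) (cnt_nonneg _))
    rw [hterm m] at h1
    linarith
  have hstop : ∀ m, An (m + 2) ≤ ex a p (fun ω => F ω *
      cnt fun z => DP x (mix D ω β) ω G r' (m + 2) z ∧ Stop x (mix D ω β) ω z) +
      ex a p (fun ω => F ω *
      cnt fun z => DP x (mix D ω β) ω G r' (m + 1) z ∧ Stop x (mix D ω β) ω z) := by
    intro m
    rw [← ex_add]
    refine ex_mono hpar (fun ω => ?_)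
    rw [← mul_add]
    exact mul_le_mul_of_nonneg_left (cnt_not_stop hx hr' (hGc ω) m) (hF0 ω)
  have hstep : ∀ m, An (m + 3) ≤ (Cst / (1 + Cst)) * An (m + 1) := by
    intro m
    have h1 := hstop m
    have h2 := hsurg (m + 1)
    have h3 := hsurg m
    have h4 := hanti (m + 1)
    have h5 : An (m + 3) ≤ Cst * (An (m + 1) - An (m + 3)) := by
      have e1 : An (m + 1 + 1) = An (m + 2) := rfl
      have e2 : An (m + 1 + 2) = An (m + 3) := rfl
      rw [e1, e2] at h2
      rw [e2] at h4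
      have e3 : An (m + 1 + 1) = An (m + 2) := rfl
      rw [e3] at h4
      nlinarith [h1, h2, h3, h4]
    rw [div_mul_eq_mul_div, le_div_iff₀ (by linarith)]
    nlinarith [h5]
  have hfinal : ∀ m : ℕ, An (2 * m + 1) ≤ (Cst / (1 + Cst)) ^ m * An 1 := by
    intro m
    induction m with
    | zero => simp
    | succ m ih =>
      have h1 := hstep (2 * m)
      have e : 2 * (m + 1) + 1 = 2 * m + 3 := by ring
      rw [e]
      have hnn : 0 ≤ Cst / (1 + Cst) := by positivity
      calc An (2 * m + 3) ≤ (Cst / (1 + Cst)) * An (2 * m + 1) := h1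
        _ ≤ (Cst / (1 + Cst)) * ((Cst / (1 + Cst)) ^ m * An 1) :=
            mul_le_mul_of_nonneg_left ih hnn
        _ = (Cst / (1 + Cst)) ^ (m + 1) * An 1 := by rw [pow_succ]; ring
  exact hfinal n

end Pool.Agent.Lib_helper33.ASM
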