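import Pool.Agent.Lib_helper33.ASM.Stmts

/-!
# Module LD: large deviations
-/

set_option autoImplicit false
set_option linter.unusedSectionVars false

open scoped BigOperators

namespace Pool.Agent.Lib_helper33.ASM

section ld

variable {d : ℕ} {p : ℝ} {𝓜 : Model d}

/-- the sites outside the ball where the scale `k` begins -/
def ldO (𝓜 : Model d) (o : Sp d) (k : ℕ) : Set 𝓜.ι := {z | (2 : ℝ) ^ (10 * k) / 100 < dist (𝓜.x z) o}

/-- the sites inside the ball where the scale `k` begins -/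
def ldI (𝓜 : Model d) (o : Sp d) (k : ℕ) : Set 𝓜.ι := {z | dist (𝓜.x z) o < (2 : ℝ) ^ (10 * k) / 100}

/-- truncation -/
noncomputable def ldT (𝓜 : Model d) (o : Sp d) (k : ℕ) (ω : Cfg 𝓜.ι) : Cfg 𝓜.ι :=
  mix (ldI 𝓜 o k) ω (fun _ => none)

lemma ld_b_mono {k k' : ℕ} (h : k ≤ k') : (2 : ℝ) ^ (10 * k) / 100 ≤ 2 ^ (10 * k') / 100 := by
  have : (2 : ℝ) ^ (10 * k) ≤ 2 ^ (10 * k') := pow_le_pow_right₀ (by norm_num) (by omega)
  linarith

lemma ld_mix_mem {ι : Type*} {D : Set ι} {ω β : Cfg ι} {i : ι} (h : i ∈ D) : mix D ω β i = ω i := by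
  simp [mix, h]

lemma ld_mix_not_mem {ι : Type*} {D : Set ι} {ω β : Cfg ι} {i : ι} (h : i ∉ D) :
    mix D ω β i = β i := by
  simp [mix, h]

/-- `Gd` depends only on the matchings below `r` near the scale -/
lemma ld_gd_congr {e : Sp d} (he : ‖e‖ = 1) {l : ℕ} {η lam : ℝ} {o : Sp d} {k : ℕ}
    {ζ₁ ζ₂ : Cfg 𝓜.ι} {B : Set 𝓜.ι}
    (hB : ∀ z, dist (𝓜.x z) o ≤ 4 * 2 ^ (10 * k) → ∀ i,
      dist (𝓜.x z) (𝓜.x i) < 2 ^ (10 * k) / 2 ^ l → i ∈ B ∧ ζ₁ i = ζ₂ i)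
    (hA : Agree 𝓜.x ζ₁ ζ₂ B (2 ^ (10 * k) / 2 ^ l)) :
    Gd 𝓜 e l η lam o k ζ₁ ↔ Gd 𝓜 e l η lam o k ζ₂ := by
  have hr : (0 : ℝ) < 2 ^ (10 * k) / 2 ^ l := by positivity
  have hs : (0 : ℝ) < 2 ^ (10 * k) := by positivity
  have hfm : ∀ z, dist (𝓜.x z) o ≤ 4 * 2 ^ (10 * k) →
      (FM 𝓜.x ζ₁ (2 ^ (10 * k) / 2 ^ l) z ↔ FM 𝓜.x ζ₂ (2 ^ (10 * k) / 2 ^ l) z) :=
    fun z hz => fm_agree hA hr (hB z hz)
  have hfmr : ∀ z, dist (𝓜.x z) o ≤ 4 * 2 ^ (10 * k) →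
      (FMR 𝓜.x ζ₁ (2 ^ (10 * k) / 2 ^ l) z ↔ FMR 𝓜.x ζ₂ (2 ^ (10 * k) / 2 ^ l) z) :=
    fun z hz => fmr_agree hA hr (hB z hz)
  have h1 : ∀ c : ℝ, 0 ≤ c → c ≤ 1 → ∀ z, dist (𝓜.x z) (o + (2 ^ (10 * k) * c : ℝ) • e) ≤
      2 ^ (10 * k) / 50 → dist (𝓜.x z) o ≤ 4 * 2 ^ (10 * k) := by
    intro c hc0 hc1 z hz
    have h2 : dist (o + (2 ^ (10 * k) * c : ℝ) • e) o = 2 ^ (10 * k) * c := by
      rw [dist_eq_norm, add_sub_cancel_left, norm_smul, he, mul_one, Real.norm_eq_abs,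
        abs_of_nonneg (by positivity)]
    have h3 := dist_triangle (𝓜.x z) (o + (2 ^ (10 * k) * c : ℝ) • e) o
    rw [h2] at h3
    nlinarith
  have c1 : (fun z => dist (𝓜.x z) (o + (2 ^ (10 * k) / 5 : ℝ) • e) ≤ 2 ^ (10 * k) / 50 ∧
      FMR 𝓜.x ζ₁ (2 ^ (10 * k) / 2 ^ l) z) =
      (fun z => dist (𝓜.x z) (o + (2 ^ (10 * k) / 5 : ℝ) • e) ≤ 2 ^ (10 * k) / 50 ∧
      FMR 𝓜.x ζ₂ (2 ^ (10 * k) / 2 ^ l) z) := by
    funext z
    apply propext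
    refine and_congr_right fun hz => hfmr z (h1 (1 / 5) (by norm_num) (by norm_num) z ?_)
    rwa [show (2 : ℝ) ^ (10 * k) * (1 / 5) = 2 ^ (10 * k) / 5 by ring]
  have c2 : (fun z => dist (𝓜.x z) (o + (2 ^ (10 * k) * 4 / 5 : ℝ) • e) ≤ 2 ^ (10 * k) / 50 ∧
      FMR 𝓜.x ζ₁ (2 ^ (10 * k) / 2 ^ l) z) =
      (fun z => dist (𝓜.x z) (o + (2 ^ (10 * k) * 4 / 5 : ℝ) • e) ≤ 2 ^ (10 * k) / 50 ∧
      FMR 𝓜.x ζ₂ (2 ^ (10 * k) / 2 ^ l) z) := by
    funext z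
    apply propext
    refine and_congr_right fun hz => hfmr z (h1 (4 / 5) (by norm_num) (by norm_num) z ?_)
    rwa [show (2 : ℝ) ^ (10 * k) * (4 / 5) = 2 ^ (10 * k) * 4 / 5 by ring]
  have c3 : (fun z => 2 ^ (10 * k) / 25 ≤ dist (𝓜.x z) o ∧
      dist (𝓜.x z) o ≤ 4 * 2 ^ (10 * k) ∧ FM 𝓜.x ζ₁ (2 ^ (10 * k) / 2 ^ l) z) =
      (fun z => 2 ^ (10 * k) / 25 ≤ dist (𝓜.x z) o ∧
      dist (𝓜.x z) o ≤ 4 * 2 ^ (10 * k) ∧ FM 𝓜.x ζ₂ (2 ^ (10 * k) / 2 ^ l) z) := by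
    funext z
    apply propext
    exact and_congr_right fun _ => and_congr_right fun hz => hfm z hz
  unfold Gd
  rw [c1, c2, c3]

/-- the annulus where two truncations are compared -/
def ldD (𝓜 : Model d) (o : Sp d) (b : ℝ) : Set 𝓜.ι :=
  {z | b / 2 < dist (𝓜.x z) o ∧ dist (𝓜.x z) o < b}

/-- the barrier -/
def ldA (𝓜 : Model d) (o : Sp d) (b : ℝ) : Set 𝓜.ι :=
  {z | 7 / 10 * b ≤ dist (𝓜.x z) o ∧ dist (𝓜.x z) o ≤ 8 / 10 * b}

/-- agreement on the barrier implies the same goodness -/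
lemma ld_barrier {e : Sp d} (he : ‖e‖ = 1) {l : ℕ} (hl : 5 ≤ l) {η lam : ℝ} {o : Sp d} {k m : ℕ}
    (hm : 1 ≤ m) {ζ₁ ζ₂ : Cfg 𝓜.ι}
    (hc : ∀ z, dist (𝓜.x z) o < 2 ^ (10 * (k + m)) / 100 → ζ₁ z = ζ₂ z)
    (hA : Agree 𝓜.x ζ₁ ζ₂ (ldA 𝓜 o (2 ^ (10 * (k + m)) / 100)) (2 ^ (10 * k) / 2 ^ l)) :
    Gd 𝓜 e l η lam o k ζ₁ ↔ Gd 𝓜 e l η lam o k ζ₂ := by
  set r : ℝ := 2 ^ (10 * k) / 2 ^ l with hr
  set b : ℝ := 2 ^ (10 * (k + m)) / 100 with hb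
  have hs : (0 : ℝ) < 2 ^ (10 * k) := by positivity
  have hr0 : 0 < r := by positivity
  have hrs : r ≤ 2 ^ (10 * k) / 32 := by
    rw [hr]
    apply div_le_div_of_nonneg_left hs.le (by norm_num)
    calc (32 : ℝ) = 2 ^ 5 := by norm_num
      _ ≤ 2 ^ l := pow_le_pow_right₀ (by norm_num) hl
  have hbs : 10 * 2 ^ (10 * k) ≤ b := by
    rw [hb]
    have h1 : (2 : ℝ) ^ (10 * (k + 1)) ≤ 2 ^ (10 * (k + m)) :=
      pow_le_pow_right₀ (by norm_num) (by omega)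
    have h2 : (2 : ℝ) ^ (10 * (k + 1)) = 2 ^ (10 * k) * 1024 := by
      rw [mul_add, pow_add]; norm_num
    rw [h2] at h1
    linarith
  have hb0 : 0 < b := by linarith
  -- inside
  have hin : Agree 𝓜.x ζ₁ ζ₂ {z | dist (𝓜.x z) o < 7 / 10 * b} r := by
    refine agree_inside 𝓜.gen hr0 hA ?_ ?_ ?_
    · rintro i ⟨-, hi⟩
      exact hc i (by linarith)
    · intro i hi
      have hi' : dist (𝓜.x i) o < 7 / 10 * b := hi
      exact hc i (by linarith)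
    · intro i hi j hij
      have hi' : dist (𝓜.x i) o < 7 / 10 * b := hi
      by_cases h : dist (𝓜.x j) o < 7 / 10 * b
      · exact Or.inl h
      · right
        push Not at h
        refine ⟨h, ?_⟩
        have h3 := dist_triangle (𝓜.x j) (𝓜.x i) o
        rw [dist_comm (𝓜.x j) (𝓜.x i)] at h3
        nlinarith
  refine ld_gd_congr (B := {z | dist (𝓜.x z) o < 7 / 10 * b}) he ?_ hin
  intro z hz i hi
  have h3 := dist_triangle (𝓜.x i) (𝓜.x z) o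
  rw [dist_comm (𝓜.x i) (𝓜.x z)] at h3
  have h4 : dist (𝓜.x i) o < 7 / 10 * b := by
    have : dist (𝓜.x z) (𝓜.x i) < r := hi
    linarith
  exact ⟨h4, hc i (by linarith)⟩

/-- two contents outside `D` -/
lemma ld_two (h : Par 𝓜.a p) {C : ℝ} {D A : Set 𝓜.ι} {r : ℝ}
    (hloc : ∀ β : Cfg 𝓜.ι, pr 𝓜.a p (fun ω => ¬ Agree 𝓜.x (mix D ω β) ω A r) ≤ C)
    {Z₁ Z₂ : Cfg 𝓜.ι → Cfg 𝓜.ι}
    (h1 : ∀ ω ω', Z₁ (mix D ω ω') = mix D ω (Z₁ ω'))
    (h2 : ∀ ω ω', Z₂ (mix D ω ω') = mix D ω (Z₂ ω')) :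
    pr 𝓜.a p (fun ω => ¬ Agree 𝓜.x (Z₁ ω) (Z₂ ω) A r) ≤ 2 * C := by
  refine ex_le_of_mix h D _ (fun ω' => ?_)
  simp only [h1, h2]
  have key : ∀ ω, (¬ Agree 𝓜.x (mix D ω (Z₁ ω')) (mix D ω (Z₂ ω')) A r) →
      (¬ Agree 𝓜.x (mix D ω (Z₁ ω')) ω A r ∨ ¬ Agree 𝓜.x (mix D ω (Z₂ ω')) ω A r) := by
    intro ω hn
    by_contra hcon
    push Not at hcon
    exact hn (hcon.1.trans hcon.2.symm)
  calc pr 𝓜.a p (fun ω => ¬ Agree 𝓜.x (mix D ω (Z₁ ω')) (mix D ω (Z₂ ω')) A r)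
      ≤ pr 𝓜.a p (fun ω => ¬ Agree 𝓜.x (mix D ω (Z₁ ω')) ω A r ∨
          ¬ Agree 𝓜.x (mix D ω (Z₂ ω')) ω A r) := pr_mono h key
    _ ≤ _ := pr_or_le h _ _
    _ ≤ C + C := add_le_add (hloc _) (hloc _)
    _ = 2 * C := by ring

/-- sequential independence -/
lemma ld_ind (h : Par 𝓜.a p) {o : Sp d} {k₁ k₂ : ℕ} (hk : k₁ ≤ k₂) {A : Cfg 𝓜.ι → Prop}
    {B : Cfg 𝓜.ι → Prop} {c : ℝ} (ζ : Cfg 𝓜.ι)
    (hA : ∀ ω ω', (∀ z, dist (𝓜.x z) o < 2 ^ (10 * k₂) / 100 → ω z = ω' z) → (A ω ↔ A ω'))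
    (hB : ∀ ζ', pr 𝓜.a p (fun ω => B (mix (ldO 𝓜 o k₂) ω ζ')) ≤ c) :
    pr 𝓜.a p (fun ω => A ω ∧ B (mix (ldO 𝓜 o k₁) ω ζ)) ≤ pr 𝓜.a p A * c := by
  have hsub : ldO 𝓜 o k₂ ⊆ ldO 𝓜 o k₁ := fun z hz => lt_of_le_of_lt (ld_b_mono hk) hz
  have hmm : ∀ ω ω', mix (ldO 𝓜 o k₁) (mix (ldO 𝓜 o k₂) ω ω') ζ =
      mix (ldO 𝓜 o k₂) ω (mix (ldO 𝓜 o k₁) ω' ζ) := by
    intro ω ω'
    funext z
    by_cases h2 : z ∈ ldO 𝓜 o k₂
    · rw [ld_mix_mem (hsub h2), ld_mix_mem h2, ld_mix_mem h2]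
    · by_cases h1 : z ∈ ldO 𝓜 o k₁
      · rw [ld_mix_mem h1, ld_mix_not_mem h2, ld_mix_not_mem h2, ld_mix_mem h1]
      · rw [ld_mix_not_mem h1, ld_mix_not_mem h2, ld_mix_not_mem h1]
  have hAm : ∀ ω ω', A (mix (ldO 𝓜 o k₂) ω ω') ↔ A ω' := by
    intro ω ω'
    refine hA _ _ fun z hz => ld_mix_not_mem ?_
    intro hz'
    have hz'' : (2 : ℝ) ^ (10 * k₂) / 100 < dist (𝓜.x z) o := hz'
    linarith
  have e1 : pr 𝓜.a p (fun ω => A ω ∧ B (mix (ldO 𝓜 o k₁) ω ζ)) =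
      ex 𝓜.a p (fun ω' => ex 𝓜.a p (fun ω =>
        ind (A ω') * ind (B (mix (ldO 𝓜 o k₂) ω (mix (ldO 𝓜 o k₁) ω' ζ))))) := by
    unfold pr
    rw [ex_mix (ldO 𝓜 o k₂)]
    congr 1
    funext ω'
    congr 1
    funext ω
    rw [ind_and, hmm]
    congr 2
    exact propext (hAm ω ω')
  rw [e1]
  have e2 : pr 𝓜.a p A * c = ex 𝓜.a p (fun ω' => c * ind (A ω')) := by
    rw [ex_mul_left, mul_comm]
    rfl
  rw [e2]
  refine ex_mono h fun ω' => ?_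
  rw [ex_mul_left, mul_comm]
  exact mul_le_mul_of_nonneg_right (hB _) (ind_nonneg _)


/-- a truncated resampled configuration commutes with resampling on `D` -/
lemma ld_mix_comm {D T O : Set 𝓜.ι} (hT : D ⊆ T) (hO : D ⊆ O) (ζ β : Cfg 𝓜.ι) (ω ω' : Cfg 𝓜.ι) :
    mix T (mix O (mix D ω ω') ζ) β = mix D ω (mix T (mix O ω' ζ) β) := by
  funext z
  by_cases hD : z ∈ D
  · rw [ld_mix_mem (hT hD), ld_mix_mem (hO hD), ld_mix_mem hD, ld_mix_mem hD]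
  · by_cases h1 : z ∈ T
    · by_cases h2 : z ∈ O
      · rw [ld_mix_mem h1, ld_mix_mem h2, ld_mix_not_mem hD, ld_mix_not_mem hD, ld_mix_mem h1, ld_mix_mem h2]
      · rw [ld_mix_mem h1, ld_mix_not_mem h2, ld_mix_not_mem hD, ld_mix_mem h1, ld_mix_not_mem h2]
    · rw [ld_mix_not_mem h1, ld_mix_not_mem hD, ld_mix_not_mem h1]

/-- the events which say that the content beyond the truncation matters -/
lemma ld_event (h : Par 𝓜.a p) {e : Sp d} (he : ‖e‖ = 1) {l : ℕ} (hl : 5 ≤ l) {η lam : ℝ}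
    {o : Sp d} {k m J : ℕ} (hm : 1 ≤ m) {C : ℝ}
    (hlk : l ≤ 10 * k) (hJ1 : 10 * k - l ≤ J) (hJ2 : 10 * (m - 1) + l ≤ J) (ho : ‖o‖ ≤ J)
    (hloc : ∀ i ≤ J, ∀ l ≤ J, ∀ c : Sp d, ‖c‖ ≤ J →
      ∀ (D A : Set 𝓜.ι) (β : Cfg 𝓜.ι), (∀ s ∈ A, dist (𝓜.x s) c ≤ 2 ^ (10 + l + i)) →
      (∀ s ∈ A, ∀ s', dist (𝓜.x s) (𝓜.x s') ≤ 2 ^ (l + i) → s' ∈ D) →
      pr 𝓜.a p (fun ω => ¬ Agree 𝓜.x (mix D ω β) ω A (2 ^ i)) ≤ C * (1 / 2) ^ ((d + 2) * l))
    {Z₁ Z₂ : Cfg 𝓜.ι → Cfg 𝓜.ι}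
    (h1 : ∀ ω ω', Z₁ (mix (ldD 𝓜 o (2 ^ (10 * (k + m)) / 100)) ω ω') =
      mix (ldD 𝓜 o (2 ^ (10 * (k + m)) / 100)) ω (Z₁ ω'))
    (h2 : ∀ ω ω', Z₂ (mix (ldD 𝓜 o (2 ^ (10 * (k + m)) / 100)) ω ω') =
      mix (ldD 𝓜 o (2 ^ (10 * (k + m)) / 100)) ω (Z₂ ω'))
    (hc : ∀ ω z, dist (𝓜.x z) o < 2 ^ (10 * (k + m)) / 100 → Z₁ ω z = Z₂ ω z) :
    pr 𝓜.a p (fun ω => ¬ (Gd 𝓜 e l η lam o k (Z₁ ω) ↔ Gd 𝓜 e l η lam o k (Z₂ ω))) ≤
      2 * (C * (1 / 2) ^ ((d + 2) * (10 * (m - 1) + l))) := by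
  set b : ℝ := 2 ^ (10 * (k + m)) / 100 with hb
  have hb0 : 0 < b := by positivity
  have hexp : 10 * (m - 1) + l + (10 * k - l) + 10 = 10 * (k + m) := by omega
  have hpow : (2 : ℝ) ^ (10 * (m - 1) + l + (10 * k - l)) * 1024 = 2 ^ (10 * (k + m)) := by
    rw [← hexp, pow_add _ _ 10]
    norm_num
  have hr : (2 : ℝ) ^ (10 * k) / 2 ^ l = 2 ^ (10 * k - l) := by
    rw [div_eq_iff (by positivity), ← pow_add]
    congr 1
    omega
  have hP : (2 : ℝ) ^ (10 * (k + m)) = 100 * b := by rw [hb]; ring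
  have hA : ∀ β : Cfg 𝓜.ι, pr 𝓜.a p (fun ω => ¬ Agree 𝓜.x (mix (ldD 𝓜 o b) ω β) ω
      (ldA 𝓜 o b) (2 ^ (10 * k - l))) ≤ C * (1 / 2) ^ ((d + 2) * (10 * (m - 1) + l)) := by
    intro β
    refine hloc (10 * k - l) hJ1 (10 * (m - 1) + l) hJ2 o ho (ldD 𝓜 o b) (ldA 𝓜 o b) β ?_ ?_
    · rintro s ⟨-, hs⟩
      have e1 : 10 + (10 * (m - 1) + l) + (10 * k - l) = 10 * (k + m) := by omega
      rw [e1, hP]
      linarith
    · rintro s ⟨hs1, hs2⟩ s' hs'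
      have h3 : dist (𝓜.x s) (𝓜.x s') ≤ b / 10 := by
        refine hs'.trans ?_
        rw [hP] at hpow
        linarith
      have h4 := dist_triangle (𝓜.x s) (𝓜.x s') o
      have h5 := dist_triangle (𝓜.x s') (𝓜.x s) o
      rw [dist_comm (𝓜.x s') (𝓜.x s)] at h5
      constructor
      · change b / 2 < dist (𝓜.x s') o
        linarith
      · linarith
  have key := ld_two h hA h1 h2
  refine le_trans (pr_mono h fun ω hω => ?_) key
  intro hag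
  apply hω
  rw [← hr] at hag
  exact ld_barrier he hl hm (hc ω) hag

end ld

lemma ld_chain {P : ℕ → Prop} {M : ℕ} (h : ¬ P (M + 1)) (h1 : P 1) :
    ∃ m ∈ Finset.range M, ¬ (P (m + 1) ↔ P (m + 2)) := by
  by_contra hcon
  push Not at hcon
  have : ∀ m, m ≤ M → P (m + 1) := by
    intro m
    induction m with
    | zero => intro _; exact h1
    | succ m ih =>
      intro hm
      exact (hcon m (Finset.mem_range.2 (by omega))).1 (ih (by omega))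
  exact h (this M le_rfl)

theorem stmtLD {d : ℕ} {p : ℝ} (hp0 : 0 < p) (hp1 : p < 1) (hGOOD : StmtGOOD d p)
    (hLOC : StmtLOC d p) : StmtLD d p := by
  classical
  intro e he
  obtain ⟨C, hC, hLOC⟩ := hLOC
  obtain ⟨n₀, hn₀⟩ := pow_unbounded_of_one_lt C (show (1 : ℝ) < 2 by norm_num)
  set γ : ℝ := (1 / 2 : ℝ) ^ (10 * d + 4) with hγ
  have hγ0 : 0 < γ := by positivity
  have hγ1 : γ ≤ 1 := pow_le_one₀ (by norm_num) (by norm_num)
  obtain ⟨l, k₀, η, lam, hl0, hlk, hη, hlam, hG⟩ :=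
    hGOOD e he (γ / 2) (by positivity) (20 * d + 11 + n₀)
  have hl5 : 5 ≤ l := by omega
  refine ⟨l, k₀, η, lam, hlk, hl5, hη, hlam, fun I => ?_⟩
  have hEv := (hG I).and ((hLOC (10 * I + l + 20)).and (Ev.good (d := d) p 0 0 (a₀ := 1) one_pos))
  refine hEv.mono ?_
  rintro 𝓜 ⟨hg, hloc, hgood⟩ o ho
  have hpar : Par 𝓜.a p := hgood.par hp0 hp1
  have hoJ : ‖o‖ ≤ ((10 * I + l + 20 : ℕ) : ℝ) := by
    refine ho.trans ?_
    exact_mod_cast (by omega : I ≤ 10 * I + l + 20)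
  -- the main claim
  have main : ∀ n : ℕ, ∀ S : Finset ℕ, S.card = n → (∀ k ∈ S, k₀ ≤ k ∧ k ≤ I) →
      ∀ k₁ ∈ S, (∀ k ∈ S, k₁ ≤ k) → ∀ ζ : Cfg 𝓜.ι,
      pr 𝓜.a p (fun ω => ∀ k ∈ S, ¬ Gd 𝓜 e l η lam o k (mix (ldO 𝓜 o k₁) ω ζ)) ≤ γ ^ n := by
    intro n
    induction n using Nat.strong_induction_on with
    | _ n ih =>
    intro S hSn hS k₁ hk₁ hmin ζ
    have hk₁I := (hS k₁ hk₁).2
    have hk₁k₀ := (hS k₁ hk₁).1
    set M : ℕ := I + 1 - k₁ with hM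
    set T : ℕ → Set 𝓜.ι := fun m => if m ≤ M then ldI 𝓜 o (k₁ + m) else Set.univ with hT
    set Z : ℕ → Cfg 𝓜.ι → Cfg 𝓜.ι := fun m ω =>
      mix (T m) (mix (ldO 𝓜 o k₁) ω ζ) (fun _ => none) with hZ
    have hZlast : ∀ ω, Z (M + 1) ω = mix (ldO 𝓜 o k₁) ω ζ := by
      intro ω
      funext z
      simp only [hZ, hT]
      rw [if_neg (by omega)]
      exact ld_mix_mem (Set.mem_univ z)
    -- the sets of later scales
    set Sm : ℕ → Finset ℕ := fun m => S.filter fun k => k₁ + m < k with hSm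
    have hcardm : ∀ m, n ≤ (Sm m).card + m + 1 := by
      intro m
      have h1 : S ⊆ (Sm m) ∪ (Finset.Icc k₁ (k₁ + m)) := by
        intro k hk
        rw [Finset.mem_union, Finset.mem_Icc]
        by_cases h : k₁ + m < k
        · left
          exact Finset.mem_filter.2 ⟨hk, h⟩
        · right
          exact ⟨hmin k hk, by omega⟩
      have h2 := Finset.card_le_card h1
      have h3 := Finset.card_union_le (Sm m) (Finset.Icc k₁ (k₁ + m))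
      rw [Nat.card_Icc] at h3
      omega
    have hcardlt : ∀ m, (Sm m).card < n := by
      intro m
      rw [← hSn]
      apply Finset.card_lt_card
      rw [Finset.ssubset_iff_of_subset (Finset.filter_subset _ _)]
      refine ⟨k₁, hk₁, fun h => ?_⟩
      have := (Finset.mem_filter.1 h).2
      omega
    -- sequential independence
    have hseq : ∀ (m : ℕ) (A : Cfg 𝓜.ι → Prop),
        (∀ ω ω', (∀ z, dist (𝓜.x z) o < 2 ^ (10 * (k₁ + m + 1)) / 100 → ω z = ω' z) →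
          (A ω ↔ A ω')) →
        pr 𝓜.a p (fun ω => A ω ∧ ∀ k ∈ Sm m, ¬ Gd 𝓜 e l η lam o k (mix (ldO 𝓜 o k₁) ω ζ)) ≤
          pr 𝓜.a p A * γ ^ (Sm m).card := by
      intro m A hA
      by_cases hne : (Sm m).Nonempty
      · set k₂ := (Sm m).min' hne with hk₂
        have hk₂m : k₂ ∈ Sm m := Finset.min'_mem _ _
        have hk₂' : k₁ + m < k₂ := (Finset.mem_filter.1 hk₂m).2
        refine ld_ind hpar (k₁ := k₁) (k₂ := k₂) (by omega) (A := A)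
          (B := fun ξ => ∀ k ∈ Sm m, ¬ Gd 𝓜 e l η lam o k ξ) ζ ?_ ?_
        · intro ω ω' h
          refine hA ω ω' fun z hz => h z (lt_of_lt_of_le hz (ld_b_mono (by omega)))
        · intro ζ'
          exact ih (Sm m).card (hcardlt m) (Sm m) rfl
            (fun k hk => hS k (Finset.mem_of_mem_filter k hk)) k₂ hk₂m
            (fun k hk => Finset.min'_le _ _ hk) ζ'
      · rw [Finset.not_nonempty_iff_eq_empty] at hne
        rw [hne, Finset.card_empty, pow_zero, mul_one]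
        exact pr_mono hpar fun ω hω => hω.1
    -- the first event
    have hE0 : pr 𝓜.a p (fun ω => ¬ Gd 𝓜 e l η lam o k₁ (Z 1 ω)) ≤ γ / 2 := by
      have h1 : ∀ ω, Z 1 ω = mix (Ann 𝓜 o k₁) ω (ldT 𝓜 o (k₁ + 1) ζ) := by
        intro ω
        have h1M : 1 ≤ M := by omega
        funext z
        simp only [hZ, hT]
        rw [if_pos h1M]
        by_cases hA : z ∈ Ann 𝓜 o k₁
        · have hA1 : z ∈ ldI 𝓜 o (k₁ + 1) := hA.2
          have hA2 : z ∈ ldO 𝓜 o k₁ := hA.1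
          rw [ld_mix_mem hA1, ld_mix_mem hA2, ld_mix_mem hA]
        · rw [ld_mix_not_mem hA]
          by_cases h2 : z ∈ ldI 𝓜 o (k₁ + 1)
          · have h3 : z ∉ ldO 𝓜 o k₁ := fun h => hA ⟨h, h2⟩
            rw [ld_mix_mem h2, ld_mix_not_mem h3]
            unfold ldT
            rw [ld_mix_mem h2]
          · rw [ld_mix_not_mem h2]
            unfold ldT
            rw [ld_mix_not_mem h2]
      simp only [h1]
      exact hg k₁ hk₁k₀ hk₁I o ho _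
    -- the other events
    have hEm : ∀ m < M, pr 𝓜.a p (fun ω => ¬ (Gd 𝓜 e l η lam o k₁ (Z (m + 1) ω) ↔
        Gd 𝓜 e l η lam o k₁ (Z (m + 2) ω))) ≤
        2 * (C * (1 / 2) ^ ((d + 2) * (10 * m + l))) := by
      intro m hm
      have hD : ldD 𝓜 o (2 ^ (10 * (k₁ + (m + 1))) / 100) ⊆ ldO 𝓜 o k₁ := by
        rintro z ⟨hz, -⟩
        refine lt_of_le_of_lt ?_ hz
        have h1 : (2 : ℝ) ^ (10 * k₁) * 2 ≤ 2 ^ (10 * (k₁ + (m + 1))) := by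
          rw [← pow_succ]
          exact pow_le_pow_right₀ (by norm_num) (by omega)
        linarith
      have hD1 : ldD 𝓜 o (2 ^ (10 * (k₁ + (m + 1))) / 100) ⊆ T (m + 1) := by
        rintro z ⟨-, hz⟩
        simp only [hT]
        rw [if_pos (by omega)]
        exact hz
      have hT12 : ∀ z, dist (𝓜.x z) o < 2 ^ (10 * (k₁ + (m + 1))) / 100 →
          z ∈ T (m + 1) ∧ z ∈ T (m + 2) := by
        intro z hz
        constructor
        · simp only [hT]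
          rw [if_pos (by omega)]
          exact hz
        · simp only [hT]
          split_ifs
          · exact lt_of_lt_of_le hz (ld_b_mono (by omega))
          · exact Set.mem_univ z
      have hD2 : ldD 𝓜 o (2 ^ (10 * (k₁ + (m + 1))) / 100) ⊆ T (m + 2) := by
        rintro z ⟨-, hz⟩
        exact (hT12 z hz).2
      have h := ld_event (𝓜 := 𝓜) hpar he hl5 (η := η) (lam := lam) (o := o) (k := k₁)
        (m := m + 1) (J := 10 * I + l + 20) (by omega) (C := C) (by omega) (by omega) (by omega)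
        hoJ hloc (Z₁ := Z (m + 1)) (Z₂ := Z (m + 2))
        (fun ω ω' => ld_mix_comm hD1 hD ζ _ ω ω') (fun ω ω' => ld_mix_comm hD2 hD ζ _ ω ω')
        (fun ω z hz => by
          simp only [hZ]
          rw [ld_mix_mem (hT12 z hz).1, ld_mix_mem (hT12 z hz).2])
      simpa using h
    -- dependence of the events on the content
    have hdep : ∀ m < M, ∀ ω ω' : Cfg 𝓜.ι,
        (∀ z, dist (𝓜.x z) o < 2 ^ (10 * (k₁ + m)) / 100 → ω z = ω' z) → Z m ω = Z m ω' := by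
      intro m hm ω ω' h
      funext z
      simp only [hZ, hT]
      rw [if_pos hm.le]
      by_cases h1 : z ∈ ldI 𝓜 o (k₁ + m)
      · rw [ld_mix_mem h1, ld_mix_mem h1]
        by_cases h2 : z ∈ ldO 𝓜 o k₁
        · rw [ld_mix_mem h2, ld_mix_mem h2]
          exact h z h1
        · rw [ld_mix_not_mem h2, ld_mix_not_mem h2]
      · rw [ld_mix_not_mem h1, ld_mix_not_mem h1]
    have hdepM : ∀ m ≤ M, ∀ ω ω' : Cfg 𝓜.ι,
        (∀ z, dist (𝓜.x z) o < 2 ^ (10 * (k₁ + m)) / 100 → ω z = ω' z) → Z m ω = Z m ω' := by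
      intro m hm ω ω' h
      funext z
      simp only [hZ, hT]
      rw [if_pos hm]
      by_cases h1 : z ∈ ldI 𝓜 o (k₁ + m)
      · rw [ld_mix_mem h1, ld_mix_mem h1]
        by_cases h2 : z ∈ ldO 𝓜 o k₁
        · rw [ld_mix_mem h2, ld_mix_mem h2]
          exact h z h1
        · rw [ld_mix_not_mem h2, ld_mix_not_mem h2]
      · rw [ld_mix_not_mem h1, ld_mix_not_mem h1]
    -- union bound
    have hunion : ∀ ω : Cfg 𝓜.ι,
        (∀ k ∈ S, ¬ Gd 𝓜 e l η lam o k (mix (ldO 𝓜 o k₁) ω ζ)) →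
        ((¬ Gd 𝓜 e l η lam o k₁ (Z 1 ω) ∧
          ∀ k ∈ Sm 0, ¬ Gd 𝓜 e l η lam o k (mix (ldO 𝓜 o k₁) ω ζ)) ∨
        ∃ m ∈ Finset.range M, (¬ (Gd 𝓜 e l η lam o k₁ (Z (m + 1) ω) ↔
          Gd 𝓜 e l η lam o k₁ (Z (m + 2) ω)) ∧
          ∀ k ∈ Sm (m + 1), ¬ Gd 𝓜 e l η lam o k (mix (ldO 𝓜 o k₁) ω ζ))) := by
      intro ω hω
      by_cases h1 : Gd 𝓜 e l η lam o k₁ (Z 1 ω)
      · right
        obtain ⟨m, hm, hm'⟩ := ld_chain (P := fun m => Gd 𝓜 e l η lam o k₁ (Z m ω)) (M := M)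
          (by
            rw [hZlast]
            exact hω k₁ hk₁) h1
        exact ⟨m, hm, hm', fun k hk => hω k (Finset.mem_of_mem_filter k hk)⟩
      · left
        exact ⟨h1, fun k hk => hω k (Finset.mem_of_mem_filter k hk)⟩
    have hn1 : 1 ≤ n := by
      rw [← hSn]
      exact Finset.card_pos.2 ⟨k₁, hk₁⟩
    -- bound of the first term
    have hfirst : pr 𝓜.a p (fun ω => ¬ Gd 𝓜 e l η lam o k₁ (Z 1 ω) ∧
          ∀ k ∈ Sm 0, ¬ Gd 𝓜 e l η lam o k (mix (ldO 𝓜 o k₁) ω ζ)) ≤ γ ^ n / 2 := by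
      have h1 := hseq 0 (fun ω => ¬ Gd 𝓜 e l η lam o k₁ (Z 1 ω)) (fun ω ω' h => by
        rw [hdepM 1 (by omega) ω ω' (by simpa using h)])
      refine h1.trans ?_
      have h2 : γ ^ (Sm 0).card * γ ≤ γ ^ n := by
        rw [← pow_succ]
        exact pow_le_pow_of_le_one hγ0.le hγ1 (by have := hcardm 0; omega)
      calc pr 𝓜.a p (fun ω => ¬ Gd 𝓜 e l η lam o k₁ (Z 1 ω)) * γ ^ (Sm 0).card
          ≤ γ / 2 * γ ^ (Sm 0).card := mul_le_mul_of_nonneg_right hE0 (by positivity)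
        _ = (γ ^ (Sm 0).card * γ) / 2 := by ring
        _ ≤ γ ^ n / 2 := by linarith
    -- bound of the other terms
    have hother : ∀ m ∈ Finset.range M,
        pr 𝓜.a p (fun ω => ¬ (Gd 𝓜 e l η lam o k₁ (Z (m + 1) ω) ↔
          Gd 𝓜 e l η lam o k₁ (Z (m + 2) ω)) ∧
          ∀ k ∈ Sm (m + 1), ¬ Gd 𝓜 e l η lam o k (mix (ldO 𝓜 o k₁) ω ζ)) ≤
          γ ^ n * ((1 / 4) * (1 / 2) ^ m) := by
      intro m hm
      have hmM : m < M := Finset.mem_range.1 hm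
      have h1 : pr 𝓜.a p (fun ω => ¬ (Gd 𝓜 e l η lam o k₁ (Z (m + 1) ω) ↔
          Gd 𝓜 e l η lam o k₁ (Z (m + 2) ω)) ∧
          ∀ k ∈ Sm (m + 1), ¬ Gd 𝓜 e l η lam o k (mix (ldO 𝓜 o k₁) ω ζ)) ≤
          (2 * (C * (1 / 2) ^ ((d + 2) * (10 * m + l)))) * γ ^ (Sm (m + 1)).card := by
        by_cases hlast : m + 1 < M
        · refine (hseq (m + 1) (fun ω => ¬ (Gd 𝓜 e l η lam o k₁ (Z (m + 1) ω) ↔
            Gd 𝓜 e l η lam o k₁ (Z (m + 2) ω))) ?_).trans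
            (mul_le_mul_of_nonneg_right (hEm m hmM) (by positivity))
          intro ω ω' h
          have e1 : Z (m + 1) ω = Z (m + 1) ω' :=
            hdepM (m + 1) (by omega) ω ω' fun z hz => h z (lt_of_lt_of_le hz (ld_b_mono (by omega)))
          have e2 : Z (m + 2) ω = Z (m + 2) ω' :=
            hdepM (m + 2) (by omega) ω ω' fun z hz => h z (lt_of_lt_of_le hz (ld_b_mono (by omega)))
          rw [e1, e2]
        · have hemp : Sm (m + 1) = ∅ := by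
            apply Finset.filter_eq_empty_iff.2
            intro k hk
            have := (hS k hk).2
            omega
          rw [hemp, Finset.card_empty, pow_zero, mul_one]
          exact (pr_mono hpar fun ω hω => hω.1).trans (hEm m hmM)
      refine h1.trans ?_
      -- exponents
      obtain ⟨F, hF1, hF2⟩ : ∃ F : ℕ, n₀ + 3 ≤ F ∧
          (d + 2) * (10 * m + l) = m + (10 * d + 4) * (m + 2) + F := by
        refine ⟨(d + 2) * (10 * m + l) - (m + (10 * d + 4) * (m + 2)), ?_, ?_⟩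
        · have : m + (10 * d + 4) * (m + 2) + (n₀ + 3) ≤ (d + 2) * (10 * m + l) := by
            have h2 : (d + 2) * (10 * m + l) = 10 * d * m + 20 * m + (d * l + 2 * l) := by ring
            have h3 : m + (10 * d + 4) * (m + 2) = m + 10 * d * m + 4 * m + 20 * d + 8 := by ring
            rw [h2, h3]
            have h4 : 0 ≤ d * l := Nat.zero_le _
            omega
          omega
        · have : m + (10 * d + 4) * (m + 2) ≤ (d + 2) * (10 * m + l) := by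
            have h2 : (d + 2) * (10 * m + l) = 10 * d * m + 20 * m + (d * l + 2 * l) := by ring
            have h3 : m + (10 * d + 4) * (m + 2) = m + 10 * d * m + 4 * m + 20 * d + 8 := by ring
            rw [h2, h3]
            have h4 : 0 ≤ d * l := Nat.zero_le _
            omega
          omega
      have hFC : C * (1 / 2 : ℝ) ^ F ≤ 1 / 8 := by
        have h2 : (1 / 2 : ℝ) ^ F ≤ (1 / 2) ^ (n₀ + 3) :=
          pow_le_pow_of_le_one (by norm_num) (by norm_num) hF1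
        have h3 : C * (1 / 2 : ℝ) ^ n₀ ≤ 1 := by
          have h4 : (2 : ℝ) ^ n₀ * (1 / 2) ^ n₀ = 1 := by
            rw [← mul_pow]; norm_num
          calc C * (1 / 2 : ℝ) ^ n₀ ≤ 2 ^ n₀ * (1 / 2) ^ n₀ :=
                mul_le_mul_of_nonneg_right hn₀.le (by positivity)
            _ = 1 := h4
        calc C * (1 / 2 : ℝ) ^ F ≤ C * (1 / 2) ^ (n₀ + 3) := mul_le_mul_of_nonneg_left h2 hC.le
          _ = (C * (1 / 2 : ℝ) ^ n₀) * (1 / 8) := by rw [pow_add]; ring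
          _ ≤ 1 * (1 / 8) := mul_le_mul_of_nonneg_right h3 (by norm_num)
          _ = 1 / 8 := by norm_num
      have hγpow : (1 / 2 : ℝ) ^ ((10 * d + 4) * (m + 2)) = γ ^ (m + 2) := by
        rw [hγ, ← pow_mul]
      have hcc : γ ^ (Sm (m + 1)).card * γ ^ (m + 2) ≤ γ ^ n := by
        rw [← pow_add]
        exact pow_le_pow_of_le_one hγ0.le hγ1 (by have := hcardm (m + 1); omega)
      rw [hF2, pow_add, pow_add, hγpow]
      calc 2 * (C * ((1 / 2 : ℝ) ^ m * γ ^ (m + 2) * (1 / 2) ^ F)) * γ ^ (Sm (m + 1)).card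
          = 2 * (C * (1 / 2) ^ F) * (1 / 2 : ℝ) ^ m * (γ ^ (Sm (m + 1)).card * γ ^ (m + 2)) := by
            ring
        _ ≤ 2 * (1 / 8) * (1 / 2 : ℝ) ^ m * γ ^ n := by
            apply mul_le_mul _ hcc (by positivity) (by positivity)
            apply mul_le_mul_of_nonneg_right _ (by positivity)
            linarith
        _ = γ ^ n * ((1 / 4) * (1 / 2) ^ m) := by ring
    calc pr 𝓜.a p (fun ω => ∀ k ∈ S, ¬ Gd 𝓜 e l η lam o k (mix (ldO 𝓜 o k₁) ω ζ))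
        ≤ pr 𝓜.a p (fun ω => (¬ Gd 𝓜 e l η lam o k₁ (Z 1 ω) ∧
          ∀ k ∈ Sm 0, ¬ Gd 𝓜 e l η lam o k (mix (ldO 𝓜 o k₁) ω ζ)) ∨
        ∃ m ∈ Finset.range M, (¬ (Gd 𝓜 e l η lam o k₁ (Z (m + 1) ω) ↔
          Gd 𝓜 e l η lam o k₁ (Z (m + 2) ω)) ∧
          ∀ k ∈ Sm (m + 1), ¬ Gd 𝓜 e l η lam o k (mix (ldO 𝓜 o k₁) ω ζ))) :=
          pr_mono hpar hunion
      _ ≤ _ := pr_or_le hpar _ _
      _ ≤ γ ^ n / 2 + ∑ m ∈ Finset.range M, γ ^ n * ((1 / 4) * (1 / 2) ^ m) := by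
          refine add_le_add hfirst ((pr_exists_le hpar _ _).trans ?_)
          exact Finset.sum_le_sum hother
      _ ≤ γ ^ n := by
          rw [← Finset.mul_sum, ← Finset.mul_sum]
          have hgeo : ∑ m ∈ Finset.range M, (1 / 2 : ℝ) ^ m ≤ 2 := by
            have := Summable.sum_le_tsum (Finset.range M)
              (fun m _ => by positivity : ∀ m ∉ Finset.range M, 0 ≤ (1 / 2 : ℝ) ^ m)
              (summable_geometric_two)
            rwa [tsum_geometric_two] at this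
          have hgn : 0 ≤ γ ^ n := by positivity
          nlinarith
  intro S hS
  by_cases hne : S.Nonempty
  · set k₁ := S.min' hne with hk₁
    refine ex_le_of_mix hpar (ldO 𝓜 o k₁) _ fun ω' => ?_
    exact main S.card S rfl hS k₁ (Finset.min'_mem _ _) (fun k hk => Finset.min'_le _ _ hk) ω'
  · rw [Finset.not_nonempty_iff_eq_empty] at hne
    rw [hne, Finset.card_empty, pow_zero]
    exact pr_le_one hpar _

end Pool.Agent.Lib_helper33.ASM
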