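import Pool.Agent.Lib_helper33.ASM.Stmts

/-!
# Module SURG: the surgery inequality
-/

set_option autoImplicit false
set_option linter.unusedSectionVars false

open scoped BigOperators

namespace Pool.Agent.Lib_helper33.ASM

section surgdet

variable {ι : Type*} [Finite ι] {E : Type*} [MetricSpace E] {x : ι → E}

/-- the surgery does not change the matching up to time `τ` -/
lemma surg_same {ω : Cfg ι} {S : Set ι} {z : ι} {τ : ℝ}
    (hz : ω z ≠ none)
    (hS : ∀ s ∈ S, ∀ l, mt x ω s l → τ < dist (x s) (x l))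
    (hred : ∀ k, mt x ω z k → dist (x z) (x k) ≤ τ → ω z = some true → ω k = some true)
    (hzS : z ∉ S) (i j : ι) (hij : dist (x i) (x j) ≤ τ) :
    mt x (ins (er ω S) z false) i j ↔ mt x ω i j := by
  classical
  have hst : ∀ i, ins (er ω S) z false i ≠ none → ω i ≠ none := by
    intro i hi
    by_cases h1 : i = z
    · rw [h1]; exact hz
    · by_cases h2 : i ∈ S
      · simp [ins, er, h1, h2] at hi
      · simpa [ins, er, h1, h2] using hi
  have hst2 : ∀ i, ins (er ω S) z false i = some true → ω i = some true := by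
    intro i hi
    by_cases h1 : i = z
    · simp [ins, h1] at hi
    · by_cases h2 : i ∈ S
      · simp [ins, er, h1, h2] at hi
      · simpa [ins, er, h1, h2] using hi
  refine IsKer.agree_of_removed {t | t ≤ τ} (fun a b hab ha => le_trans hab ha)
    (mt_isKer x ω) (mt_isKer x _) ?_ ?_ i j hij
  · rintro i j - ⟨h1, h2, h3, h4⟩
    exact ⟨h1, hst i h2, hst j h3, h4.imp (hst2 i) (hst2 j)⟩
  · intro i j hij hm
    have hok := mt_ok hm
    have hi : i ∉ S := fun h => absurd hij (not_le.2 (hS i h j hm))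
    have hj : j ∉ S := fun h => by
      have := hS j h i (mt_symm hm)
      rw [dist_comm] at this
      exact absurd hij (not_le.2 this)
    have hval : ∀ u, u ∉ S → u ≠ z → ins (er ω S) z false u = ω u := by
      intro u hu hu'
      simp [ins, er, hu, hu']
    have hvalz : ins (er ω S) z false z = some false := by simp [ins]
    refine ⟨hok.1, ?_, ?_, ?_⟩
    · by_cases h : i = z
      · rw [h, hvalz]; simp
      · rw [hval i hi h]; exact hok.2.1
    · by_cases h : j = z
      · rw [h, hvalz]; simp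
      · rw [hval j hj h]; exact hok.2.2.1
    · by_cases h : i = z
      · subst h
        right
        rw [hval j hj (fun e => hok.1 e.symm)]
        rcases hok.2.2.2 with h4 | h4
        · exact hred j hm hij h4
        · exact h4
      · by_cases h' : j = z
        · subst h'
          left
          rw [hval i hi h]
          rcases hok.2.2.2 with h4 | h4
          · exact h4
          · exact hred i (mt_symm hm) (by rw [dist_comm]; exact hij) h4
        · rw [hval i hi h, hval j hj h']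
          exact hok.2.2.2

lemma pred_of_same {ω₁ ω₂ ω₁' ω₂' : Cfg ι} {τ : ℝ}
    (h1 : ∀ i j, dist (x i) (x j) ≤ τ → (mt x ω₁' i j ↔ mt x ω₁ i j))
    (h2 : ∀ i j, dist (x i) (x j) ≤ τ → (mt x ω₂' i j ↔ mt x ω₂ i j)) {i k : ι}
    (hk : dist (x i) (x k) ≤ τ) (h : Pred x ω₁ ω₂ i k) : Pred x ω₁' ω₂' i k := by
  rcases h with ⟨ha, hb⟩ | ⟨ha, hb⟩
  · refine Or.inl ⟨(h1 i k hk).2 ha, fun l hl => ?_⟩
    by_contra hcon
    push Not at hcon
    exact absurd (hb l ((h2 i l (hcon.trans hk)).1 hl)) (not_lt.2 hcon)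
  · refine Or.inr ⟨(h2 i k hk).2 ha, fun l hl => ?_⟩
    by_contra hcon
    push Not at hcon
    exact absurd (hb l ((h1 i l (hcon.trans hk)).1 hl)) (not_lt.2 hcon)

lemma dp_of_same (hx : Gen x) {ω₁ ω₂ ω₁' ω₂' : Cfg ι} {τ : ℝ} {G : Set ι} {r' : ℝ}
    (hG : ∀ i ∈ G, ∀ k, dist (x i) (x k) < r' → ω₁ k = ω₂ k) (hr' : 0 < r')
    (h1 : ∀ i j, dist (x i) (x j) ≤ τ → (mt x ω₁' i j ↔ mt x ω₁ i j))
    (h2 : ∀ i j, dist (x i) (x j) ≤ τ → (mt x ω₂' i j ↔ mt x ω₂ i j)) :
    ∀ (n : ℕ) (z : ι), (∀ k, Pred x ω₁ ω₂ z k → dist (x z) (x k) ≤ τ) →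
      DP x ω₁ ω₂ G r' n z → DP x ω₁' ω₂' G r' n z := by
  intro n
  induction n with
  | zero => intro z _ h; exact h
  | succ n ih =>
    rintro z hz ⟨hzG, k, hk, hkr, hdp⟩
    refine ⟨hzG, k, pred_of_same h1 h2 (hz k hk) hk, hkr, ih k ?_ hdp⟩
    intro k2 hk2
    have hzz : ω₁ z = ω₂ z := hG z hzG z (by rw [dist_self]; exact hr')
    have hkk : ω₁ k = ω₂ k := hG z hzG k hkr
    obtain ⟨k3, hk3, hlt⟩ := pred_step hk hzz hkk
    have : k2 = k3 := pred_unique hx hk2 hk3
    rw [this]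
    exact (hlt.trans_le (hz k hk)).le

end surgdet

section surgmain

variable {ι : Type} [Fintype ι] [DecidableEq ι] {d : ℕ} {x : ι → Sp d}

open Classical in
/-- the red points erased by the surgery at `z` -/
noncomputable def SurgR (x : ι → Sp d) (D : Set ι) (β : Cfg ι) (r' : ℝ) (z : ι) (ω : Cfg ι) :
    Finset ι :=
  Finset.univ.filter fun j => j ≠ z ∧ ω j = some true ∧ dist (x z) (x j) < r' ∧
    ∀ k, Pred x (mix D ω β) ω z k → (∀ l, mt x ω j l → dist (x z) (x k) < dist (x j) (x l)) ∧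
      (∀ l, mt x (mix D ω β) j l → dist (x z) (x k) < dist (x j) (x l))

open Classical in
/-- the free sites near `z` -/
noncomputable def SurgF (x : ι → Sp d) (r r' : ℝ) (z : ι) (ω : Cfg ι) : Finset ι :=
  Finset.univ.filter fun s => dist (x z) (x s) < r' ∧ FM x ω r s

lemma mix_surg {D : Set ι} {β ω : Cfg ι} {S : Set ι} {z : ι} (hz : z ∈ D) (hS : S ⊆ D) :
    mix D (ins (er ω S) z false) β = ins (er (mix D ω β) S) z false := by
  classical
  funext i
  by_cases h1 : i = z
  · subst h1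
    simp [mix, ins, hz]
  · by_cases h2 : i ∈ D
    · simp [mix, ins, er, h1, h2]
    · have : i ∉ S := fun h => h2 (hS h)
      simp [mix, ins, er, h1, h2, this]

lemma surg_cnt_card (A : ι → Prop) [DecidablePred A] :
    cnt A = ((Finset.univ.filter A).card : ℝ) := by
  unfold cnt
  congr!

theorem surg_main (hx : Gen x) {a : ℝ} {D A G : Set ι} {β : Cfg ι} {r r' lam : ℝ} (hAD : A ⊆ D)
    (hr : 0 ≤ r) (hrr' : r < r') (hG : ∀ i ∈ G, ∀ k, dist (x i) (x k) < r' → k ∈ A) (n : ℕ)
    (z : ι) (ω : Cfg ι)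
    (hA : Agree x (mix D ω β) ω A r) (hW : Wc x a ω G r r' lam)
    (hdp : DP x (mix D ω β) ω G r' (n + 1) z) (hstop : Stop x (mix D ω β) ω z) :
    let ω' := ins (er ω (SurgR x D β r' z ω : Set ι)) z false
    (Agree x (mix D ω' β) ω' A r ∧ Wc x a ω' G r r' lam) ∧
    DP x (mix D ω' β) ω' G r' (n + 1) z ∧ Term x (mix D ω' β) ω' G r' z ∧
    SurgR x D β r' z ω ⊆ SurgF x r r' z ω' ∧
    (∀ s ∈ SurgR x D β r' z ω, s ≠ z ∧ ω s = some true) ∧ ω z ≠ none ∧
    (∀ s ∈ SurgR x D β r' z ω, dist (x z) (x s) < r' ∧ Un x ω r s) := by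
  classical
  intro ω'
  have hr' : 0 < r' := lt_of_le_of_lt hr hrr'
  set ω₁ := mix D ω β with hω₁
  set S : Set ι := (SurgR x D β r' z ω : Set ι) with hSdef
  obtain ⟨hzG, k, hk, hkr, hdpn⟩ := id hdp
  set τ := dist (x z) (x k) with hτ
  have hzA : z ∈ A := hG z hzG z (by rw [dist_self]; exact hr')
  have hzD : z ∈ D := hAD hzA
  have hkA : k ∈ A := hG z hzG k hkr
  have hkD : k ∈ D := hAD hkA
  have hcom : ∀ u ∈ D, ω₁ u = ω u := by
    intro u hu
    simp [hω₁, mix, hu]
  have hGc : ∀ i ∈ G, ∀ k, dist (x i) (x k) < r' → ω₁ k = ω k :=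
    fun i hi k hk => hcom k (hAD (hG i hi k hk))
  have hpu : ∀ k', Pred x ω₁ ω z k' → k' = k := fun k' hk' => pred_unique hx hk' hk
  have hrτ : r ≤ τ := pred_dist_ge hA hzA hk
  have hmemS : ∀ s, s ∈ S ↔ s ≠ z ∧ ω s = some true ∧ dist (x z) (x s) < r' ∧
      (∀ l, mt x ω s l → τ < dist (x s) (x l)) ∧
      (∀ l, mt x ω₁ s l → τ < dist (x s) (x l)) := by
    intro s
    rw [hSdef]
    simp only [SurgR, Finset.coe_filter, Finset.mem_univ, true_and, Set.mem_ofPred_eq]
    constructor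
    · rintro ⟨h1, h2, h3, h4⟩
      exact ⟨h1, h2, h3, (h4 k hk).1, (h4 k hk).2⟩
    · rintro ⟨h1, h2, h3, h4, h5⟩
      refine ⟨h1, h2, h3, fun k' hk' => ?_⟩
      rw [hpu k' hk']
      exact ⟨h4, h5⟩
  have hSD : S ⊆ D := fun s hs => hAD (hG z hzG s ((hmemS s).1 hs).2.2.1)
  have hzS : z ∉ S := fun h => ((hmemS z).1 h).1 rfl
  -- occupation of z
  have hzocc : ω z ≠ none := by
    rcases hk with ⟨h, -⟩ | ⟨h, -⟩
    · rw [← hcom z hzD]; exact mt_occ h
    · exact mt_occ h
  -- the red partner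
  have hredk : ω z = some true → ω k = some true := by
    intro hzr
    rcases hstop with h | ⟨-, k', hk', hkk⟩
    · change ω₁ z = some false at h
      rw [hcom z hzD, hzr] at h
      simp at h
    · rw [hpu k' hk'] at hkk
      change ω₁ k = some true at hkk
      rwa [hcom k hkD] at hkk
  have hred2 : ∀ l, mt x ω z l → dist (x z) (x l) ≤ τ → ω z = some true → ω l = some true := by
    intro l hl hlt hzr
    rcases hk with ⟨h, h'⟩ | ⟨h, h'⟩
    · exact absurd (h' l hl) (not_lt.2 hlt)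
    · rw [mt_unique hx hl h]
      exact hredk hzr
  have hred1 : ∀ l, mt x ω₁ z l → dist (x z) (x l) ≤ τ → ω₁ z = some true → ω₁ l = some true := by
    intro l hl hlt hzr
    rcases hk with ⟨h, h'⟩ | ⟨h, h'⟩
    · rw [mt_unique hx hl h, hcom k hkD]
      rw [hcom z hzD] at hzr
      exact hredk hzr
    · exact absurd (h' l hl) (not_lt.2 hlt)
  -- the two new configurations
  have hmix : mix D ω' β = ins (er ω₁ S) z false := mix_surg hzD hSD
  have hsame2 : ∀ i j, dist (x i) (x j) ≤ τ → (mt x ω' i j ↔ mt x ω i j) := fun i j hij =>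
    surg_same hzocc (fun s hs l hl => ((hmemS s).1 hs).2.2.2.1 l hl) hred2 hzS i j hij
  have hsame1 : ∀ i j, dist (x i) (x j) ≤ τ → (mt x (mix D ω' β) i j ↔ mt x ω₁ i j) := by
    intro i j hij
    rw [hmix]
    exact surg_same (by rw [hcom z hzD]; exact hzocc)
      (fun s hs l hl => ((hmemS s).1 hs).2.2.2.2 l hl) hred1 hzS i j hij
  -- values of ω'
  have hval : ∀ u, u ∉ S → u ≠ z → ω' u = ω u := by
    intro u hu hu'
    simp only [ω', ins, er]
    rw [if_neg hu', if_neg hu]
  have hvalz : ω' z = some false := by simp [ω', ins]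
  have hvalS : ∀ u ∈ S, ω' u = none := by
    intro u hu
    have hu' : u ≠ z := fun e => hzS (e ▸ hu)
    simp only [ω', ins, er]
    rw [if_neg hu', if_pos hu]
  -- z is not matched before τ in ω
  have hzun : ∀ l, mt x ω z l → τ ≤ dist (x z) (x l) := by
    intro l hl
    rcases hk with ⟨h, h'⟩ | ⟨h, h'⟩
    · exact (h' l hl).le
    · rw [mt_unique hx hl h]
  -- FM is unchanged
  have hFM : ∀ s, FM x ω' r s ↔ FM x ω r s := by
    intro s
    have hb : Bf x ω' r s ↔ Bf x ω r s := by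
      constructor
      · rintro ⟨l, hl, hlr⟩
        exact ⟨l, (hsame2 s l (hlr.le.trans hrτ)).1 hl, hlr⟩
      · rintro ⟨l, hl, hlr⟩
        exact ⟨l, (hsame2 s l (hlr.le.trans hrτ)).2 hl, hlr⟩
    unfold FM
    rw [hb]
    refine and_congr Iff.rfl ⟨fun h y l hy hm hlr => ?_, fun h y l hy hm hlr => ?_⟩
    · have hyS : y ∉ S := fun hyS =>
        absurd (((hmemS y).1 hyS).2.2.2.1 l hm) (not_lt.2 (hlr.le.trans hrτ))
      have hyz : y ≠ z := by
        rintro rfl
        exact absurd (hzun l hm) (not_le.2 (lt_of_lt_of_le hlr hrτ))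
      exact h y l (by rw [hval y hyS hyz]; exact hy) ((hsame2 y l (hlr.le.trans hrτ)).2 hm) hlr
    · have hyz : y ≠ z := by
        rintro rfl
        rw [hvalz] at hy
        simp at hy
      have hyS : y ∉ S := by
        intro hyS
        rw [hvalS y hyS] at hy
        simp at hy
      exact h y l (by rw [← hval y hyS hyz]; exact hy) ((hsame2 y l (hlr.le.trans hrτ)).1 hm) hlr
  have hUnS : ∀ s ∈ S, Un x ω r s := by
    intro s hs
    have h := (hmemS s).1 hs
    refine ⟨by rw [h.2.1]; simp, ?_⟩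
    rintro ⟨l, hl, hlr⟩
    exact absurd (h.2.2.2.1 l hl) (not_lt.2 (hlr.le.trans hrτ))
  refine ⟨⟨?_, ?_⟩, ?_, ?_, ?_, ?_, hzocc, ?_⟩
  · -- Agree
    intro i hi j hij
    rw [hsame1 i j (hij.le.trans hrτ), hsame2 i j (hij.le.trans hrτ)]
    exact hA i hi j hij
  · -- Wc
    intro u hu
    have := hW u hu
    simp only [hFM]
    exact this
  · -- DP
    refine dp_of_same hx hGc hr' hsame1 hsame2 (n + 1) z ?_ hdp
    intro k' hk'
    rw [hpu k' hk']
  · -- Term
    rintro ⟨z', hz'G, hp', hz'r⟩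
    have hz'A : z' ∈ A := hG z' hz'G z' (by rw [dist_self]; exact hr')
    have hz'D : z' ∈ D := hAD hz'A
    have hc' : ∀ u ∈ D, mix D ω' β u = ω' u := by
      intro u hu
      simp [mix, hu]
    obtain ⟨k', hk', hlt⟩ := pred_step hp' (hc' z' hz'D) (hc' z hzD)
    have hk0 : Pred x (mix D ω' β) ω' z k := pred_of_same hsame1 hsame2 le_rfl hk
    have hkk : k' = k := pred_unique hx hk' hk0
    rw [hkk] at hlt
    -- z' is red
    have hz'red : ω' z' = some true ∧ z' ≠ z := by
      rcases hp' with ⟨h, -⟩ | ⟨h, -⟩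
      · have hok := mt_ok h
        refine ⟨?_, hok.1⟩
        rcases hok.2.2.2 with h4 | h4
        · rwa [hc' z' hz'D] at h4
        · rw [hc' z hzD, hvalz] at h4
          simp at h4
      · have hok := mt_ok h
        refine ⟨?_, hok.1⟩
        rcases hok.2.2.2 with h4 | h4
        · exact h4
        · rw [hvalz] at h4
          simp at h4
    have hz'S : z' ∉ S := by
      intro h
      rw [hvalS z' h] at hz'red
      simp at hz'red
    have hz'ω : ω z' = some true := by
      rw [← hval z' hz'S hz'red.2]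
      exact hz'red.1
    apply hz'S
    rw [hmemS]
    refine ⟨hz'red.2, hz'ω, by rw [dist_comm]; exact hz'r, fun l hl => ?_, fun l hl => ?_⟩
    · by_contra hcon
      push Not at hcon
      have hl' := (hsame2 z' l hcon).2 hl
      rcases hp' with ⟨h, h'⟩ | ⟨h, h'⟩
      · have h3 := h' l hl'
        linarith
      · have h3 := mt_unique hx hl' h
        rw [h3] at hcon
        linarith
    · by_contra hcon
      push Not at hcon
      have hl' := (hsame1 z' l hcon).2 hl
      rcases hp' with ⟨h, h'⟩ | ⟨h, h'⟩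
      · have h3 := mt_unique hx hl' h
        rw [h3] at hcon
        linarith
      · have h3 := h' l hl'
        linarith
  · -- S ⊆ F
    intro s hs
    have hs' : s ∈ S := hs
    simp only [SurgF, Finset.mem_filter, Finset.mem_univ, true_and]
    exact ⟨((hmemS s).1 hs').2.2.1, (hFM s).2 (Un.fm hx (hUnS s hs'))⟩
  · intro s hs
    have hs' : s ∈ S := hs
    exact ⟨((hmemS s).1 hs').1, ((hmemS s).1 hs').2.1⟩
  · intro s hs
    have hs' : s ∈ S := hs
    exact ⟨((hmemS s).1 hs').2.2.1, hUnS s hs'⟩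

end surgmain

theorem stmtSURG : StmtSURG := by
  classical
  intro d ι _ _ x hx a p ha0 ha1 hp0 hp1 D A G β r r' lam Cst hAD hr hrr' hlam hG hC n
  have hpar : Par a p := ⟨ha0, ha1, hp0, hp1⟩
  have hr' : 0 < r' := lt_of_le_of_lt hr hrr'
  have hsum : ∀ (B : ι → Cfg ι → Prop),
      ex a p (fun ω => ind (Agree x (mix D ω β) ω A r ∧ Wc x a ω G r r' lam) *
        cnt fun z => B z ω) =
      ∑ z, pr a p (fun ω => (Agree x (mix D ω β) ω A r ∧ Wc x a ω G r r' lam) ∧ B z ω) := by
    intro B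
    rw [← ex_cnt]
    congr 1
    funext ω
    rw [cnt_eq_sum, cnt_eq_sum, Finset.mul_sum]
    refine Finset.sum_congr rfl fun z _ => ?_
    exact (ind_and (Agree x (mix D ω β) ω A r ∧ Wc x a ω G r r' lam) (B z ω)).symm
  rw [hsum (fun z ω => DP x (mix D ω β) ω G r' (n + 1) z ∧ Stop x (mix D ω β) ω z),
    hsum (fun z ω => DP x (mix D ω β) ω G r' (n + 1) z ∧ Term x (mix D ω β) ω G r' z),
    Finset.mul_sum]
  refine Finset.sum_le_sum fun z _ => ?_
  refine surg_cost hpar z _ _ (SurgR x D β r' z) (SurgF x r r' z) lam Cst hlam ?_ ?_ ?_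
  · rintro ω ⟨⟨-, hW⟩, hdp, -⟩
    have := hW z hdp.1
    rw [surg_cnt_card] at this
    exact this
  · rintro ω ⟨⟨hA, hW⟩, hdp, hstop⟩
    obtain ⟨h1, h2, h3, h4, h5, h6, -⟩ :=
      surg_main (a := a) (lam := lam) hx hAD hr hrr' hG n z ω hA hW hdp hstop
    exact ⟨⟨h1, h2, h3⟩, h4, h5, h6⟩
  · rcases hC with ⟨hr0, hrr, hC⟩ | hC
    · left
      refine ⟨5 ^ d, ?_, hC⟩
      rintro ω ⟨⟨hA, hW⟩, hdp, hstop⟩
      obtain ⟨-, -, -, -, h5, -, h7⟩ :=
        surg_main (a := a) (lam := lam) hx hAD hr hrr' hG n z ω hA hW hdp hstop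
      have hp := packing (SurgR x D β r' z ω) x (x z) (R := r') (ρ := r) hr0 hr'.le
        (fun s hs => by rw [dist_comm]; exact (h7 s hs).1.le)
        (fun s hs s' hs' hne => Un.dist_le (h7 s hs).2 (h7 s' hs').2
          ⟨hne, by rw [(h5 s hs).2]; simp, by rw [(h5 s' hs').2]; simp, Or.inl (h5 s hs).2⟩)
      have e : 2 * r' / r + 1 = 5 := by
        rw [hrr]
        field_simp
        norm_num
      rw [e] at hp
      exact_mod_cast hp
    · right
      exact hC

end Pool.Agent.Lib_helper33.ASM
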